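import Mathlib
import Pool.Agent.Y711.CDef
import Pool.Agent.Y784.SV.S3

/-!
The proportion `1/2` in the classes, from `StC1` and `StC2` (for helper711).
-/

set_option autoImplicit false
set_option maxHeartbeats 1000000

open Polynomial Classical

namespace Pool.Agent.Y785.SC

open Pool.Agent.W313.Hyp Pool.Agent.Y711 Pool.Agent.Y784.SV Pool.Agent.TH943.HJ

section

variable {k : Type} [Field k] [Finite k]

theorem mem_SFc {g : ℕ} {m n : k[X]} {W : MI k → Finset ℤ} {x : k[X] × k[X] × k[X] × k[X]} :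
    x ∈ SFc g m n W ↔
      ∃ D, IsD g m D ∧ IsSol g D x.1 x.2.1 x.2.2.1 x.2.2.2 ∧ IsCls n W D := by
  unfold SFc
  rw [Finset.mem_filter, mem_SF]
  constructor
  · exact fun h => h.2
  · rintro ⟨D, h1, h2, h3⟩
    exact ⟨⟨D, h1, h2⟩, D, h1, h2, h3⟩

theorem mem_DSc {g : ℕ} {m n : k[X]} {W : MI k → Finset ℤ} {D : k[X]} :
    D ∈ DSc g m n W ↔ IsD g m D ∧ IsCls n W D := by
  unfold DSc
  rw [Finset.mem_filter, mem_DS]

theorem two_mul_bad_le_cls (h2 : (2 : k) ≠ 0) (g : ℕ) (m n : k[X]) (W : MI k → Finset ℤ) :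
    2 * ((DSc g m n W).filter Bad).card ≤ (SFc g m n W).card := by
  have key : ∀ D ∈ (DSc g m n W).filter Bad, ∃ x y : k[X] × k[X] × k[X] × k[X],
      IsSol g D x.1 x.2.1 x.2.2.1 x.2.2.2 ∧ IsSol g D y.1 y.2.1 y.2.2.1 y.2.2.2 ∧ x ≠ y := by
    intro D hD
    rw [Finset.mem_filter, mem_DSc] at hD
    obtain ⟨⟨hD1, -⟩, hded, hD2⟩ := hD
    obtain ⟨G, A, B, Q, h⟩ := exists_sol h2 hD1 hD2
    obtain ⟨B', Q', h', hne⟩ := h.conj h2
    refine ⟨(G, A, B, Q), (G, A, B', Q'), h, h', ?_⟩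
    intro h3
    apply hne
    have h4 := congrArg (fun z : k[X] × k[X] × k[X] × k[X] => z.2.2) h3
    exact h4.symm
  choose! x y hx hy hxy using key
  have h1 : ((DSc g m n W).filter Bad ×ˢ (Finset.univ : Finset Bool)).card ≤
      (SFc g m n W).card := by
    refine Finset.card_le_card_of_injOn (fun p => if p.2 then x p.1 else y p.1) ?_ ?_
    · rintro ⟨D, b⟩ hp
      rw [Finset.mem_coe, Finset.mem_product] at hp
      have hD := hp.1
      dsimp only at hD
      have hD' := mem_DSc.1 (Finset.mem_filter.1 hD).1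
      rw [Finset.mem_coe, mem_SFc]
      refine ⟨D, hD'.1, ?_, hD'.2⟩
      dsimp only
      cases b
      · exact hy D hD
      · exact hx D hD
    · rintro ⟨D, b⟩ hp ⟨D', b'⟩ hp' he
      rw [Finset.mem_coe, Finset.mem_product] at hp hp'
      have hD := hp.1
      have hD' := hp'.1
      dsimp only at hD hD' he
      have hDD : D = D' := by
        cases b <;> cases b'
        · have e1 := hy D hD
          have e2 := hy D' hD'
          simp only [Bool.false_eq_true, if_false] at he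
          rw [he] at e1
          exact sol_unique e1 e2
        · have e1 := hy D hD
          have e2 := hx D' hD'
          simp only [Bool.false_eq_true, if_false, if_true] at he
          rw [he] at e1
          exact sol_unique e1 e2
        · have e1 := hx D hD
          have e2 := hy D' hD'
          simp only [Bool.false_eq_true, if_false, if_true] at he
          rw [he] at e1
          exact sol_unique e1 e2
        · have e1 := hx D hD
          have e2 := hx D' hD'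
          simp only [if_true] at he
          rw [he] at e1
          exact sol_unique e1 e2
      subst hDD
      cases b <;> cases b'
      · rfl
      · simp only [Bool.false_eq_true, if_false, if_true] at he
        exact absurd he.symm (hxy D hD)
      · simp only [Bool.false_eq_true, if_false, if_true] at he
        exact absurd he (hxy D hD)
      · rfl
  rw [Finset.card_product, Finset.card_univ, Fintype.card_bool, mul_comm] at h1
  exact h1

/-- the extended classes -/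
noncomputable def ex (n : k[X]) (W : MI k → Finset ℤ) (P : MI k) : Finset ℤ :=
  if P.1 ∣ n then W P else {1, -1}

omit [Finite k] in
theorem chi_mem {D : k[X]} {P : MI k} (h : ¬ P.1 ∣ D) : chi D P.1 ∈ ({1, -1} : Finset ℤ) := by
  unfold chi
  rw [if_neg h]
  split_ifs
  · simp
  · simp

/-- the covering -/
theorem SFc_cover {g : ℕ} {m n : k[X]} (W : MI k → Finset ℤ) {T : Finset (MI k)}
    (hT : ∀ P ∈ T, ¬ P.1 ∣ m) :
    SFc g m n W ⊆ T.powerset.biUnion
      fun U => SFc g (m * ∏ P ∈ U, P.1) (n * ∏ P ∈ T \ U, P.1) (ex n W) := by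
  intro x hx
  rw [mem_SFc] at hx
  obtain ⟨D, hD, hsol, hcls⟩ := hx
  rw [Finset.mem_biUnion]
  set U := T.filter fun P => P.1 ∣ D with hU
  have hcop : IsCoprime m (∏ P ∈ U, P.1) := by
    apply IsCoprime.prod_right
    intro P hP
    exact ((P.2.2.coprime_iff_not_dvd).2 (hT P (Finset.mem_filter.1 hP).1)).symm
  have hdv : (∏ P ∈ U, P.1) ∣ D := by
    apply Finset.prod_dvd_of_coprime
    · intro P _ Q _ h
      exact cop_MI h
    · intro P hP
      exact (Finset.mem_filter.1 hP).2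
  have hD' : IsD g (m * ∏ P ∈ U, P.1) D :=
    ⟨hD.monic, hD.deg, hD.sqf, hcop.mul_dvd hD.dvd hdv⟩
  refine ⟨U, Finset.mem_powerset.2 (Finset.filter_subset _ _), ?_⟩
  rw [mem_SFc]
  refine ⟨D, hD', hsol, ?_⟩
  intro Q hQ
  unfold ex
  by_cases hQn : Q.1 ∣ n
  · rw [if_pos hQn]
    exact hcls Q hQn
  · rw [if_neg hQn]
    have h1 : Q.1 ∣ ∏ P ∈ T \ U, P.1 := (Q.2.2.prime.dvd_or_dvd hQ).resolve_left hQn
    rw [← mem_pd (prod_monic _).ne_zero, pd_prod, Finset.mem_sdiff] at h1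
    refine chi_mem fun h => h1.2 ?_
    exact Finset.mem_filter.2 ⟨h1.1, h⟩

theorem w2_eq (P : MI k) : w2 P = nm P / (nm P + 1) * (1 - ((nm P)⁻¹) ^ 2) ^ 3 := by
  have h := nm_pos P
  unfold w2
  field_simp
  ring

theorem wmn_eq_cls {m n : k[X]} (hm : m.Monic) (hn : n.Monic) (hmn : IsCoprime m n)
    {T : Finset (MI k)} (hT : ∀ P ∈ T, ¬ P.1 ∣ m) (hT' : ∀ P ∈ T, ¬ P.1 ∣ n) :
    ∑ U ∈ T.powerset, wmn (m * ∏ P ∈ U, P.1) (n * ∏ P ∈ T \ U, P.1) =
      ((∏ P ∈ pd m, (nm P + 1)⁻¹) * ∏ P ∈ pd n, nm P / (nm P + 1)) *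
        (∏ P ∈ (pd m ∪ pd n) ∪ T, (1 - ((nm P)⁻¹) ^ 2)) ^ 3 := by
  have hdis : Disjoint (pd m) T := by
    rw [Finset.disjoint_left]
    intro P h1 h2
    rw [mem_pd hm.ne_zero] at h1
    exact hT P h2 h1
  have hdis' : Disjoint (pd n) T := by
    rw [Finset.disjoint_left]
    intro P h1 h2
    rw [mem_pd hn.ne_zero] at h1
    exact hT' P h2 h1
  have hdmn : Disjoint (pd m) (pd n) := by
    rw [Finset.disjoint_left]
    intro P h1 h2
    rw [mem_pd hm.ne_zero] at h1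
    rw [mem_pd hn.ne_zero] at h2
    exact P.2.2.not_isUnit (hmn.isUnit_of_dvd' h1 h2)
  have h1 : ∀ U ∈ T.powerset, wmn (m * ∏ P ∈ U, P.1) (n * ∏ P ∈ T \ U, P.1) =
      ((∏ P ∈ pd m, w1 P) * ∏ P ∈ pd n, w2 P) * ((∏ P ∈ U, w1 P) * ∏ P ∈ T \ U, w2 P) := by
    intro U hU
    rw [Finset.mem_powerset] at hU
    unfold wmn
    rw [pd_mul hm.ne_zero (prod_monic U).ne_zero, pd_prod,
      pd_mul hn.ne_zero (prod_monic _).ne_zero, pd_prod,
      Finset.prod_union (Finset.disjoint_of_subset_right hU hdis),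
      Finset.prod_union (Finset.disjoint_of_subset_right Finset.sdiff_subset hdis'),
      mul_mul_mul_comm]
    rfl
  have hdu : Disjoint (pd m ∪ pd n) T := Finset.disjoint_union_left.2 ⟨hdis, hdis'⟩
  rw [Finset.sum_congr rfl h1, ← Finset.mul_sum, ← Finset.prod_add, Finset.prod_union hdu,
    Finset.prod_union hdmn, mul_pow, mul_pow, ← mul_assoc]
  congr 1
  · rw [← Finset.prod_pow, ← Finset.prod_pow, mul_mul_mul_comm, ← Finset.prod_mul_distrib,
      ← Finset.prod_mul_distrib]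
    congr 1
    · exact Finset.prod_congr rfl fun P _ => w1_eq P
    · exact Finset.prod_congr rfl fun P _ => w2_eq P
  · rw [← Finset.prod_pow]
    exact Finset.prod_congr rfl fun P _ => w12_eq P

theorem rw2_ex {n : k[X]} (hn : n.Monic) (W : MI k → Finset ℤ) {T : Finset (MI k)}
    (hT' : ∀ P ∈ T, ¬ P.1 ∣ n) : rw2 (n * ∏ P ∈ T, P.1) (ex n W) = rw2 n W := by
  have hdis' : Disjoint (pd n) T := by
    rw [Finset.disjoint_left]
    intro P h1 h2
    rw [mem_pd hn.ne_zero] at h1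
    exact hT' P h2 h1
  unfold rw2
  rw [pd_mul hn.ne_zero (prod_monic _).ne_zero, pd_prod, Finset.prod_union hdis']
  have h1 : ∏ P ∈ T, ((ex n W P).card : ℝ) / 2 = 1 := by
    refine Finset.prod_eq_one fun P hP => ?_
    unfold ex
    rw [if_neg (hT' P hP), Finset.card_pair (by norm_num)]
    norm_num
  rw [h1, mul_one]
  refine Finset.prod_congr rfl fun P hP => ?_
  rw [mem_pd hn.ne_zero] at hP
  unfold ex
  rw [if_pos hP]

theorem SC3 (h2 : (2 : k) ≠ 0) (H1 : StC1 k) (H2 : StC2 k) : StC3 k := by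
  intro m n hm hn hs Wc hWc c hc
  have hq1 : (2 : ℝ) ≤ Nat.card k := by
    have : 1 < Nat.card k := Finite.one_lt_card
    exact_mod_cast this
  set q : ℝ := (Nat.card k : ℝ) with hq
  have hq0 : (0 : ℝ) < q := by linarith
  have hqi : q⁻¹ < 1 := inv_lt_one_of_one_lt₀ (by linarith)
  have hqi0 : 0 < q⁻¹ := by positivity
  have hmn : IsCoprime m n := (squarefree_mul_iff.1 hs).1.isCoprime
  by_cases hr0 : rw2 n Wc = 0
  · -- some class is empty
    unfold rw2 at hr0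
    rw [Finset.prod_eq_zero_iff] at hr0
    obtain ⟨P, hP, hPW⟩ := hr0
    have hPW' : Wc P = ∅ := by
      rw [← Finset.card_eq_zero]
      have h3 : ((Wc P).card : ℝ) = 0 := by linarith
      exact_mod_cast h3
    have hemp : ∀ g, DSc g m n Wc = ∅ := by
      intro g
      rw [Finset.eq_empty_iff_forall_notMem]
      intro D hD
      rw [mem_DSc] at hD
      rw [mem_pd hn.ne_zero] at hP
      have h3 := hD.2 P hP
      rw [hPW'] at h3
      exact absurd h3 (Finset.notMem_empty _)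
    refine ⟨0, fun g _ => ?_⟩
    rw [hemp g]
    simp
  have hr0' : 0 < rw2 n Wc := by
    refine lt_of_le_of_ne ?_ (Ne.symm hr0)
    unfold rw2
    exact Finset.prod_nonneg fun P _ => by positivity
  set W : ℝ := ((∏ P ∈ pd m, (nm P + 1)⁻¹) * ∏ P ∈ pd n, nm P / (nm P + 1)) * rw2 n Wc with hW
  have hW0 : 0 < W := by
    refine mul_pos (mul_pos ?_ ?_) hr0'
    · exact Finset.prod_pos fun P _ => by have := nm_pos P; positivity
    · exact Finset.prod_pos fun P _ => by have := nm_pos P; positivity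
  set c0 : ℝ := (1 - q⁻¹) * W with hc0
  have hc00 : 0 < c0 := mul_pos (by linarith) hW0
  -- choose `z`: `(1 - q^{-(z+1)})^{-3} ≤ 1 + η`
  set η : ℝ := (1 - 2 * c) / 4 with hη
  have hη0 : 0 < η := by rw [hη]; linarith
  obtain ⟨z, hz⟩ : ∃ z : ℕ, (1 : ℝ) ≤ (1 + η) * (1 - (q⁻¹) ^ (z + 1)) ^ 3 := by
    have ht : Filter.Tendsto (fun z : ℕ => (1 + η) * (1 - (q⁻¹) ^ (z + 1)) ^ 3) Filter.atTop
        (nhds ((1 + η) * (1 - 0) ^ 3)) := by
      have h := (tendsto_pow_atTop_nhds_zero_of_lt_one hqi0.le hqi).comp (Filter.tendsto_add_atTop_nat 1)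
      exact ((tendsto_const_nhds.sub h).pow 3).const_mul _
    have hlt : (1 : ℝ) < (1 + η) * (1 - 0) ^ 3 := by
      rw [sub_zero, one_pow, mul_one]; linarith
    obtain ⟨z, hz⟩ := (ht.eventually_const_lt hlt).exists
    exact ⟨z, hz.le⟩
  set T : Finset (MI k) := (Az k z) \ (pd m ∪ pd n) with hT
  have hTm : ∀ P ∈ T, ¬ P.1 ∣ m := by
    intro P hP h
    rw [hT, Finset.mem_sdiff, Finset.mem_union, mem_pd hm.ne_zero] at hP
    exact hP.2 (Or.inl h)
  have hTn : ∀ P ∈ T, ¬ P.1 ∣ n := by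
    intro P hP h
    rw [hT, Finset.mem_sdiff, Finset.mem_union, mem_pd hn.ne_zero] at hP
    exact hP.2 (Or.inr h)
  have hsub : Az k z ⊆ (pd m ∪ pd n) ∪ T := by
    intro P hP
    rw [Finset.mem_union, hT, Finset.mem_sdiff]
    tauto
  set Vp : ℝ := ∏ P ∈ (pd m ∪ pd n) ∪ T, (1 - ((nm P)⁻¹) ^ 2) with hVp
  have hVp0 : 0 ≤ Vp := Finset.prod_nonneg fun P _ => by
    have h3 : (nm P)⁻¹ ≤ 1 := by
      apply inv_le_one_of_one_le₀
      unfold nm
      exact one_le_pow₀ (by linarith)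
    have h4 : 0 < (nm P)⁻¹ := inv_pos.2 (nm_pos P)
    nlinarith
  have heul : (1 - (q⁻¹) ^ (z + 1)) * Vp ≤ 1 - q⁻¹ := euler_le hsub
  have hVp3 : Vp ^ 3 ≤ (1 + η) * (1 - q⁻¹) ^ 3 := by
    have hx : 0 ≤ 1 - (q⁻¹) ^ (z + 1) := by
      have := pow_le_one₀ (n := z + 1) hqi0.le hqi.le
      linarith
    have h3 : ((1 - (q⁻¹) ^ (z + 1)) * Vp) ^ 3 ≤ (1 - q⁻¹) ^ 3 :=
      pow_le_pow_left₀ (mul_nonneg hx hVp0) heul 3
    calc Vp ^ 3 = 1 * Vp ^ 3 := (one_mul _).symm
      _ ≤ ((1 + η) * (1 - (q⁻¹) ^ (z + 1)) ^ 3) * Vp ^ 3 := by gcongr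
      _ = (1 + η) * ((1 - (q⁻¹) ^ (z + 1)) * Vp) ^ 3 := by rw [mul_pow]; ring
      _ ≤ _ := by gcongr
  -- `#SFc`
  set ε : ℝ := η * c0 / (2 ^ T.card + 1) with hε
  have hε0 : 0 < ε := by positivity
  have hex : ∀ P, ex n Wc P ⊆ {1, -1} := by
    intro P
    unfold ex
    split_ifs
    · exact hWc P
    · exact Finset.Subset.refl _
  have hsum : ∃ N1 : ℕ, ∀ g, N1 ≤ g → ((SFc g m n Wc).card : ℝ) ≤
      q ^ (2 * g + 1) * ((1 + 2 * η) * c0) := by
    have hN : ∀ U ∈ T.powerset, ∃ N : ℕ, ∀ g, N ≤ g →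
        ((SFc g (m * ∏ P ∈ U, P.1) (n * ∏ P ∈ T \ U, P.1) (ex n Wc)).card : ℝ) ≤
          q ^ (2 * g + 1) * ((q / (q - 1)) ^ 2 *
            (wmn (m * ∏ P ∈ U, P.1) (n * ∏ P ∈ T \ U, P.1) * rw2 n Wc) + ε) := by
      intro U hU
      rw [Finset.mem_powerset] at hU
      have h5 : m * (∏ P ∈ U, P.1) * (n * ∏ P ∈ T \ U, P.1) = (m * n) * ∏ P ∈ T, P.1 := by
        rw [mul_mul_mul_comm, mul_comm (∏ P ∈ U, P.1), Finset.prod_sdiff hU]
      have h6 : Squarefree (m * (∏ P ∈ U, P.1) * (n * ∏ P ∈ T \ U, P.1)) := by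
        rw [h5, squarefree_mul_iff]
        refine ⟨IsCoprime.isRelPrime ?_, hs, sqf_prod T⟩
        apply IsCoprime.prod_right
        intro P hP
        refine ((P.2.2.coprime_iff_not_dvd).2 fun h => ?_).symm
        rcases P.2.2.prime.dvd_or_dvd h with h | h
        · exact hTm P hP h
        · exact hTn P hP h
      obtain ⟨N, hN⟩ := H1 _ _ (hm.mul (prod_monic U)) (hn.mul (prod_monic (T \ U))) h6
        (ex n Wc) hex ε hε0
      refine ⟨N, fun g hg => ?_⟩
      have h7 := hN g hg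
      rwa [rw2_ex hn Wc (fun P hP => hTn P (Finset.mem_sdiff.1 hP).1)] at h7
    choose! N hN using hN
    refine ⟨T.powerset.sup N, fun g hg => ?_⟩
    have h5 : ((SFc g m n Wc).card : ℝ) ≤ ∑ U ∈ T.powerset,
        ((SFc g (m * ∏ P ∈ U, P.1) (n * ∏ P ∈ T \ U, P.1) (ex n Wc)).card : ℝ) := by
      exact_mod_cast (Finset.card_le_card (SFc_cover Wc hTm)).trans Finset.card_biUnion_le
    have h6 : ∑ U ∈ T.powerset,
        ((SFc g (m * ∏ P ∈ U, P.1) (n * ∏ P ∈ T \ U, P.1) (ex n Wc)).card : ℝ) ≤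
        ∑ U ∈ T.powerset, q ^ (2 * g + 1) *
          ((q / (q - 1)) ^ 2 *
            (wmn (m * ∏ P ∈ U, P.1) (n * ∏ P ∈ T \ U, P.1) * rw2 n Wc) + ε) := by
      refine Finset.sum_le_sum fun U hU => hN U hU g ?_
      exact (Finset.le_sup hU).trans hg
    refine (h5.trans h6).trans ?_
    rw [← Finset.mul_sum, Finset.sum_add_distrib, ← Finset.mul_sum, ← Finset.sum_mul,
      wmn_eq_cls hm hn hmn hTm hTn, Finset.sum_const, Finset.card_powerset, nsmul_eq_mul]
    have h7 : ((2 ^ T.card : ℕ) : ℝ) * ε ≤ η * c0 := by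
      rw [hε]
      push_cast
      rw [mul_div_assoc', div_le_iff₀ (by positivity)]
      nlinarith [mul_pos hη0 hc00]
    have h8 : (q / (q - 1)) ^ 2 * (((∏ P ∈ pd m, (nm P + 1)⁻¹) *
        ∏ P ∈ pd n, nm P / (nm P + 1)) * Vp ^ 3 * rw2 n Wc) ≤ (1 + η) * c0 := by
      have h9 : (q / (q - 1)) ^ 2 * (1 - q⁻¹) ^ 3 = 1 - q⁻¹ := by
        have : q - 1 ≠ 0 := by linarith
        field_simp
      calc (q / (q - 1)) ^ 2 * (((∏ P ∈ pd m, (nm P + 1)⁻¹) *
            ∏ P ∈ pd n, nm P / (nm P + 1)) * Vp ^ 3 * rw2 n Wc)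
          = (q / (q - 1)) ^ 2 * (W * Vp ^ 3) := by rw [hW]; ring
        _ ≤ (q / (q - 1)) ^ 2 * (W * ((1 + η) * (1 - q⁻¹) ^ 3)) := by gcongr
        _ = (1 + η) * (((q / (q - 1)) ^ 2 * (1 - q⁻¹) ^ 3) * W) := by ring
        _ = _ := by rw [h9]
    gcongr
    linarith
  obtain ⟨N1, hN1⟩ := hsum
  obtain ⟨N2, hN2⟩ := H2 m n hm hn hs Wc hWc (η * c0) (by positivity)
  refine ⟨max N1 N2, fun g hg => ?_⟩
  have a1 := hN1 g ((le_max_left _ _).trans hg)
  have a2 := hN2 g ((le_max_right _ _).trans hg)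
  have a0 : (1 - (Nat.card k : ℝ)⁻¹) * (∏ P ∈ pd m, (nm P + 1)⁻¹) *
        (∏ P ∈ pd n, nm P / (nm P + 1)) * rw2 n Wc = c0 := by
    rw [hc0, hW, hq]
    ring
  rw [a0, ← hq] at a2
  have a3 : 2 * (((DSc g m n Wc).filter Bad).card : ℝ) ≤ ((SFc g m n Wc).card : ℝ) := by
    exact_mod_cast two_mul_bad_le_cls h2 g m n Wc
  have a4 : ((DSc g m n Wc).card : ℝ) = (((DSc g m n Wc).filter Bad).card : ℝ) +
      (((DSc g m n Wc).filter fun D => ¬ Bad D).card : ℝ) := by
    have := Finset.card_filter_add_card_filter_not (s := DSc g m n Wc) Bad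
    exact_mod_cast this.symm
  set X : ℝ := q ^ (2 * g + 1) * c0 with hX
  have hX0 : 0 < X := by positivity
  have a5 : ((SFc g m n Wc).card : ℝ) ≤ (1 + 2 * η) * X := by
    refine a1.trans (le_of_eq ?_)
    rw [hX]; ring
  have a6 : (1 - η) * X ≤ ((DSc g m n Wc).card : ℝ) := by
    refine le_trans (le_of_eq ?_) a2
    rw [hX]; ring
  by_cases hcneg : c ≤ 0
  · have h5 : (0 : ℝ) ≤ ((DSc g m n Wc).card : ℝ) := by positivity
    have h6 : (0 : ℝ) ≤ (((DSc g m n Wc).filter fun D => ¬ Bad D).card : ℝ) := by positivity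
    nlinarith
  · have hc1 : 0 < c := not_le.1 hcneg
    have h5 : (1 - c) * ((1 - η) * X) ≤ (1 - c) * ((DSc g m n Wc).card : ℝ) :=
      mul_le_mul_of_nonneg_left a6 (by linarith)
    have h6 : (1 + 2 * η) / 2 * X ≤ (1 - c) * ((1 - η) * X) := by
      have h7 : (1 + 2 * η) / 2 ≤ (1 - c) * (1 - η) := by
        rw [hη]
        nlinarith
      calc (1 + 2 * η) / 2 * X ≤ ((1 - c) * (1 - η)) * X := by gcongr
        _ = _ := by ring
    linarith

end

end Pool.Agent.Y785.SC
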